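import Pool.Agent.helper80.VQ.SpecFL
import Pool.Agent.helper87.VQ.HFG
import Pool.Agent.helper11.VN.Spec3i
import Pool.Agent.helper74.VN.SpecC

/-!
# MP_07c750, project VN: the rows of block FL (the flow) for the class `OKN`, from the general rows of `SpecFL` (`OKG`)

`NHM`, `NHA`, `NHG` (helper74/VN/SpecC), `IDYN`, `FLBN`, `FLGN` (helper11/VN/Spec3i).
-/

set_option autoImplicit false

open scoped MatrixGroups ContDiff Topology UpperHalfPlane ComplexConjugate ENNReal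
open UpperHalfPlane MeasureTheory Filter Set

namespace Pool.Agent.VN

open Pool.Agent.RS Pool.Agent.VQ
open Pool.Agent.VQE (nm)

/-- the bounds of the derivatives for the potentials of VN: depending only on `k` for the order `≤ 3` -/
noncomputable def Bk (k : ℝ) (B : ℕ → ℝ) (n : ℕ) : ℝ := if n ≤ 3 then 1 / k else B n

theorem GL_B (k : ℝ) (B : ℕ → ℝ) : Bk k B 0 = 1 / k ∧ Bk k B 1 = 1 / k ∧ Bk k B 2 = 1 / k ∧ Bk k B 3 = 1 / k := by
  refine ⟨?_, ?_, ?_, ?_⟩ <;> simp [Bk]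

theorem GL_pot {Γ : Subgroup SL(2, ℝ)} {k : ℝ} {B : ℕ → ℝ} {U : ℍ → ℝ} (h : PotN Γ k B U) : Pg Γ k (Bk k B) U := by
  refine ⟨h.kpos.1, h.smooth, h.inv, fun z => ?_, fun g v hv n => ?_⟩
  · have := h.lo z
    have := h.kpos.1
    linarith
  · unfold Bk
    split_ifs with hn
    · exact h.up g v hv n hn
    · exact h.bd g v hv n

theorem GL_okg {Γ : Subgroup SL(2, ℝ)} {k : ℝ} {B : ℕ → ℝ} {D : Dyn} (h : OKN Γ k B D) : OKG Γ k (Bk k B) D :=
  ⟨GL_pot h.pot, h.fl0, h.out, h.dfl, h.cfl, h.Y0, h.P0, h.S0, h.a0, h.dY, h.dP, h.dS, h.da, h.cY, h.cP, h.cS, h.ca⟩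

theorem GL_okn {Γ : Subgroup SL(2, ℝ)} {k : ℝ} {B : ℕ → ℝ} {D : Dyn} (hU : PotN Γ k B D.U) (h : OKG Γ k (Bk k B) D) : OKN Γ k B D :=
  ⟨hU, h.fl0, h.out, h.dfl, h.cfl, h.Y0, h.P0, h.S0, h.a0, h.dY, h.dP, h.dS, h.da, h.cY, h.cP, h.cS, h.ca⟩

theorem NHM_proof (hMPG : MPG_stmt) : NHM_stmt := fun Γ k B D hD E t hE => hMPG Γ k (Bk k B) D (GL_okg hD) E t hE

theorem IDYN_proof (hIDG : IDG_stmt) : IDYN_stmt := by
  intro Γ k B U _ hU
  obtain ⟨D, hDU, hD⟩ := hIDG Γ k (Bk k B) U (GL_pot hU)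
  refine ⟨D, hDU, GL_okn ?_ hD⟩
  rw [hDU]
  exact hU

theorem FLBN_proof (hFLA : FLA_stmt) : FLBN_stmt := by
  intro Γ k B D _ hD E hE
  obtain ⟨h1, h2, h3, h4⟩ := hFLA Γ k (Bk k B) D (GL_okg hD) E hE
  exact ⟨h1, h2, h4⟩

theorem NHA_proof (hFLA : FLA_stmt) (hFLD : FLD_stmt) : NHA_stmt := by
  intro k hk
  refine ⟨Real.sqrt (1 / k + 2 * k) + 1, by linarith [Real.sqrt_nonneg (1 / k + 2 * k)], ?_⟩
  intro Γ B D hD E s t hE g
  obtain ⟨h1, h2, h3, h4⟩ := hFLA Γ k (Bk k B) D (GL_okg hD) E hE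
  refine ⟨h1 s t g, fun γ => h2 γ t g, h3 t g, ?_⟩
  have h5 := hFLD Γ k (Bk k B) D (GL_okg hD) E t g hE
  rw [(GL_B k B).1] at h5
  exact h5.trans (mul_le_mul_of_nonneg_right (by linarith) (abs_nonneg t))

theorem NHG_proof (hGRW : GRW_stmt) (hFLA : FLA_stmt) : NHG_stmt := by
  intro k hk
  obtain ⟨C, hC, hG⟩ := hGRW k (1 / k) hk
  refine ⟨C + 2, by linarith, ?_⟩
  intro Γ B D hD0 t s p q hp hq hs _ hN
  have hD : OKG Γ k (Bk k B) D := GL_okg hD0
  obtain ⟨hB0, hB1, hB2, -⟩ := GL_B k B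
  obtain ⟨hb, hE⟩ := hN
  have hE' : |q.2 - p.2| < s := by rwa [abs_sub_comm]
  have he : 1 ≤ Real.exp ((C + 2) * |t|) := Real.one_le_exp (by positivity)
  have hmono : Real.exp (C * |t|) ≤ Real.exp ((C + 2) * |t|) := by
    refine Real.exp_le_exp.2 (mul_le_mul_of_nonneg_right (by linarith) (abs_nonneg t))
  have hbig : 2 * s * Real.exp (C * |t|) ≤ (C + 2) * Real.exp ((C + 2) * |t|) * s := by
    calc 2 * s * Real.exp (C * |t|) ≤ (C + 2) * s * Real.exp ((C + 2) * |t|) := by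
          refine mul_le_mul ?_ hmono (Real.exp_pos _).le (by positivity)
          exact mul_le_mul_of_nonneg_right (by linarith) hs.le
      _ = _ := by ring
  have key : ∀ g' : SL(2, ℝ), nm (p.1⁻¹ * g') < s →
      nm ((D.fl p.2 t p.1)⁻¹ * D.fl q.2 t g') < (C + 2) * Real.exp ((C + 2) * |t|) * s := by
    intro g' hg'
    refine (hG Γ (Bk k B) D hB0.le hB1.le hB2.le hD p.2 q.2 t p.1 g' hp hq).trans_lt (lt_of_lt_of_le ?_ hbig)
    exact mul_lt_mul_of_pos_right (by linarith) (Real.exp_pos _)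
  refine ⟨?_, ?_⟩
  · show (D.fl p.2 t p.1)⁻¹ * D.fl q.2 t q.1 ∈ Bo _
    rcases hb with hb | hb
    · exact Or.inl ((HFG_nm _ _).1 (key q.1 ((HFG_nm _ _).2 hb)))
    · refine Or.inr ?_
      have h1 : nm (p.1⁻¹ * (-q.1)) < s := by
        rw [HFG_nm]
        intro i j
        rw [mul_neg, Matrix.SpecialLinearGroup.coe_neg, Matrix.neg_apply]
        have h2 := hb i j
        rwa [← abs_neg, neg_add, ← sub_eq_add_neg] at h2
      have h3 := (HFG_nm _ _).1 (key (-q.1) h1)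
      intro i j
      have h4 := h3 i j
      rw [(hFLA Γ k (Bk k B) D hD q.2 hq).2.2.1 t q.1, mul_neg, Matrix.SpecialLinearGroup.coe_neg,
        Matrix.neg_apply, ← abs_neg, neg_sub, sub_neg_eq_add, add_comm] at h4
      exact h4
  · show |p.2 - q.2| < _
    refine hE.trans_le ?_
    calc s = 1 * 1 * s := by ring
      _ ≤ (C + 2) * Real.exp ((C + 2) * |t|) * s := by
          refine mul_le_mul_of_nonneg_right ?_ hs.le
          exact mul_le_mul (by linarith) he zero_le_one (by linarith)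

theorem FLGN_proof (hGRW : GRW_stmt) : FLGN_stmt := by
  intro Γ k B hΓ hk
  obtain ⟨C, hC1, hC⟩ := hGRW k (1 / k) hk
  refine ⟨C + 2, 1, by linarith, by norm_num, ?_⟩
  intro D hD E E' t η g g' hE hE' hη hnr hEE hsm
  have hG := GL_okg hD
  obtain ⟨hB0, hB1, hB2, -⟩ := GL_B k B
  have h1 := hC Γ (Bk k B) D hB0.le hB1.le hB2.le hG E E' t g g' hE hE'
  have hnr' : nm (g⁻¹ * g') < η := (HFG_nm _ _).2 hnr
  refine (HFG_nm _ _).1 ?_
  have h2 : |E' - E| ≤ η := by rw [abs_sub_comm]; exact hEE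
  have h3 : Real.exp (C * |t|) ≤ Real.exp ((C + 2) * |t|) := by
    apply Real.exp_le_exp.2
    have := abs_nonneg t
    nlinarith
  have h4 : 0 < Real.exp (C * |t|) := Real.exp_pos _
  calc nm ((D.fl E t g)⁻¹ * D.fl E' t g') ≤ (nm (g⁻¹ * g') + |E' - E|) * Real.exp (C * |t|) := h1
    _ < (2 * η) * Real.exp (C * |t|) := by
        apply mul_lt_mul_of_pos_right _ h4
        linarith
    _ ≤ (2 * η) * Real.exp ((C + 2) * |t|) := by
        apply mul_le_mul_of_nonneg_left h3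
        linarith
    _ ≤ (C + 2) * η * Real.exp ((C + 2) * |t|) := by
        apply mul_le_mul_of_nonneg_right _ (Real.exp_pos _).le
        nlinarith

end Pool.Agent.VN
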